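import Mathlib.LinearAlgebra.Eigenspace.Basic
import Mathlib.Topology.MetricSpace.Pseudo.Defs
import Mathlib.Analysis.Convex.Exposed
import Mathlib.Combinatorics.SimpleGraph.AdjMatrix

set_option autoImplicit false

namespace Pool.Agent.MP_a5282b_co

open Classical in
/-- The adjacency matrix of `G`, as a linear operator on `ℝ^n`. -/
noncomputable def adjOp {n : ℕ} (G : SimpleGraph (Fin n)) : Module.End ℝ (Fin n → ℝ) :=
  Matrix.toLin' (G.adjMatrix ℝ)

/-- `θ` is the `k`-th largest distinct eigenvalue of the adjacency matrix of `G`. -/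
def IsKthEigenvalue {n : ℕ} (G : SimpleGraph (Fin n)) (θ : ℝ) (k : ℕ) : Prop :=
  (adjOp G).HasEigenvalue θ ∧ {μ : ℝ | (adjOp G).HasEigenvalue μ ∧ θ < μ}.ncard + 1 = k

/-- The `i`-th row of the matrix whose columns are the basis vectors `b j` of the eigenspace. -/
noncomputable def row {n d : ℕ} {G : SimpleGraph (Fin n)} {θ : ℝ}
    (b : Module.Basis (Fin d) ℝ ((adjOp G).eigenspace θ)) (i : Fin n) : Fin d → ℝ :=
  fun j => (b j : Fin n → ℝ) i

/-- The eigenpolytope: the convex hull of the rows. -/
noncomputable def eigenpolytope {n d : ℕ} {G : SimpleGraph (Fin n)} {θ : ℝ}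
    (b : Module.Basis (Fin d) ℝ ((adjOp G).eigenspace θ)) : Set (Fin d → ℝ) :=
  convexHull ℝ (Set.range (row b))

/-- `G` is `θ`-spectral: the eigenspace has a basis and, for every basis, the rows are distinct
vertices of the eigenpolytope, and two rows span an edge (a face that is a segment) exactly when
the two vertices of `G` are adjacent. Faces are the exposed sets. -/
def IsSpectral {n : ℕ} (G : SimpleGraph (Fin n)) (θ : ℝ) : Prop :=
  (∃ d : ℕ, Nonempty (Module.Basis (Fin d) ℝ ((adjOp G).eigenspace θ))) ∧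
  ∀ (d : ℕ) (b : Module.Basis (Fin d) ℝ ((adjOp G).eigenspace θ)),
    Function.Injective (row b) ∧
    (∀ i, IsExposed ℝ (eigenpolytope b) {row b i}) ∧
    ∀ i j, i ≠ j → (G.Adj i j ↔ IsExposed ℝ (eigenpolytope b) (segment ℝ (row b i) (row b j)))

end Pool.Agent.MP_a5282b_co
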