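import Mathlib.LinearAlgebra.FreeModule.PID
import Mathlib.RingTheory.Flat.TorsionFree
import Mathlib.Analysis.InnerProductSpace.Basic
import Mathlib.Analysis.RCLike.Lemmas
import Mathlib.Algebra.Order.Star.Real
import Mathlib.RingTheory.SimpleRing.Principal
import Mathlib.RingTheory.TotallySplit
import Mathlib.RingTheory.Etale.Weakly
import Pool.Agent.MP_a5282b_co.Defs

-- ======== part 0: formerly Pool.Agent.MP_a5282b_co.General
section MrgPart0

set_option autoImplicit false

namespace Pool.Agent.MP_a5282b_co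

variable {n d : ℕ} {G : SimpleGraph (Fin n)} {θ : ℝ}

theorem exists_functional (b : Module.Basis (Fin d) ℝ ((adjOp G).eigenspace θ))
    (u : (adjOp G).eigenspace θ) :
    ∃ l : StrongDual ℝ (Fin d → ℝ), ∀ i, l (row b i) = (u : Fin n → ℝ) i := by
  let l0 : (Fin d → ℝ) →ₗ[ℝ] ℝ := ∑ j, (b.repr u j) • LinearMap.proj j
  refine ⟨LinearMap.toContinuousLinearMap l0, fun i => ?_⟩
  have h := congrArg (fun w : (adjOp G).eigenspace θ => (w : Fin n → ℝ) i) (b.sum_repr u)
  simp only [AddSubmonoidClass.coe_finsetSum, Finset.sum_apply, SetLike.val_smul,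
    Pi.smul_apply] at h
  rw [← h]
  simp [l0, row]

theorem exposed_of_functional {E : Type} [NormedAddCommGroup E] [NormedSpace ℝ E]
    (v : Fin n → E) (l : StrongDual ℝ E) (T : Set (Fin n)) (M : ℝ)
    (h1 : ∀ i ∈ T, l (v i) = M) (h2 : ∀ i ∉ T, l (v i) < M) :
    IsExposed ℝ (convexHull ℝ (Set.range v)) (convexHull ℝ (v '' T)) := by
  classical
  intro hne
  refine ⟨l, ?_⟩
  have hle : ∀ y ∈ convexHull ℝ (Set.range v), l y ≤ M := by
    intro y hy
    have hc : Convex ℝ {y : E | l y ≤ M} := convex_halfSpace_le l.toLinearMap.isLinear M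
    refine convexHull_min ?_ hc hy
    rintro _ ⟨i, rfl⟩
    by_cases hi : i ∈ T
    · exact (h1 i hi).le
    · exact (h2 i hi).le
  have heq : ∀ y ∈ convexHull ℝ (v '' T), l y = M := by
    intro y hy
    have hc : Convex ℝ {y : E | l y = M} := convex_hyperplane l.toLinearMap.isLinear M
    refine convexHull_min ?_ hc hy
    rintro _ ⟨i, hi, rfl⟩
    exact h1 i hi
  ext x
  constructor
  · intro hx
    refine ⟨convexHull_mono (Set.image_subset_range _ _) hx, fun y hy => ?_⟩
    rw [heq x hx]
    exact hle y hy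
  · rintro ⟨hx, hmax⟩
    obtain ⟨y0, hy0⟩ := hne
    have hxM : l x = M := le_antisymm (hle x hx)
      (heq y0 hy0 ▸ hmax y0 (convexHull_mono (Set.image_subset_range _ _) hy0))
    rw [convexHull_range_eq_exists_affineCombination] at hx
    obtain ⟨s, w, hw0, hw1, hxw⟩ := hx
    rw [Finset.affineCombination_eq_linear_combination _ _ _ hw1] at hxw
    have hsum : ∑ i ∈ s, w i * (M - l (v i)) = 0 := by
      have : l x = ∑ i ∈ s, w i * l (v i) := by rw [← hxw]; simp
      simp only [mul_sub, Finset.sum_sub_distrib, ← Finset.sum_mul, hw1, ← this, hxM]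
      ring
    have hzero : ∀ i ∈ s, i ∉ T → w i = 0 := by
      intro i hi hiT
      have hnn : ∀ i ∈ s, 0 ≤ w i * (M - l (v i)) := fun i hi => mul_nonneg (hw0 i hi)
        (sub_nonneg.mpr (hle _ (subset_convexHull ℝ _ ⟨i, rfl⟩)))
      have := (Finset.sum_eq_zero_iff_of_nonneg hnn).mp hsum i hi
      rcases mul_eq_zero.mp this with h | h
      · exact h
      · exact absurd h (sub_pos.mpr (h2 i hiT)).ne'
    have hx2 : x = ∑ i ∈ s.filter (· ∈ T), w i • v i := by
      rw [← hxw, Finset.sum_filter]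
      refine Finset.sum_congr rfl fun i hi => ?_
      by_cases hiT : i ∈ T
      · simp [hiT]
      · simp [hiT, hzero i hi hiT]
    have hw2 : ∑ i ∈ s.filter (· ∈ T), w i = 1 := by
      rw [← hw1, Finset.sum_filter]
      refine Finset.sum_congr rfl fun i hi => ?_
      by_cases hiT : i ∈ T
      · simp [hiT]
      · simp [hiT, hzero i hi hiT]
    rw [hx2]
    refine (convex_convexHull ℝ _).sum_mem (fun i hi => hw0 i (Finset.mem_filter.mp hi).1) hw2 ?_
    intro i hi
    exact subset_convexHull ℝ _ ⟨i, (Finset.mem_filter.mp hi).2, rfl⟩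

theorem isSpectral_of
    (hv : ∀ i, ∃ u : (adjOp G).eigenspace θ, ∀ x, x ≠ i → (u : Fin n → ℝ) x < (u : Fin n → ℝ) i)
    (he : ∀ i j, G.Adj i j → ∃ u : (adjOp G).eigenspace θ,
      (u : Fin n → ℝ) j = (u : Fin n → ℝ) i ∧
      ∀ x, x ≠ i → x ≠ j → (u : Fin n → ℝ) x < (u : Fin n → ℝ) i)
    (hn : ∀ i j, i ≠ j → ¬ G.Adj i j → ∃ k l, k ≠ i ∧ k ≠ j ∧ ∀ u : (adjOp G).eigenspace θ,
      (u : Fin n → ℝ) k + (u : Fin n → ℝ) l = (u : Fin n → ℝ) i + (u : Fin n → ℝ) j) :
    IsSpectral G θ := by
  refine ⟨⟨_, ⟨Module.finBasis ℝ _⟩⟩, fun d b => ?_⟩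
  have hinj : Function.Injective (row b) := by
    intro i j hij
    by_contra hne
    obtain ⟨u, hu⟩ := hv j
    obtain ⟨l, hl⟩ := exists_functional b u
    have := hu i hne
    rw [← hl, ← hl, hij] at this
    exact lt_irrefl _ this
  have hvert : ∀ i, IsExposed ℝ (eigenpolytope b) {row b i} := by
    intro i
    obtain ⟨u, hu⟩ := hv i
    obtain ⟨l, hl⟩ := exists_functional b u
    have := exposed_of_functional (row b) l {i} ((u : Fin n → ℝ) i)
      (fun x hx => by rw [hl, Set.mem_singleton_iff.mp hx])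
      (fun x hx => by rw [hl]; exact hu x hx)
    rwa [Set.image_singleton, convexHull_singleton] at this
  refine ⟨hinj, hvert, fun i j hij => ⟨fun hadj => ?_, fun hex => ?_⟩⟩
  · obtain ⟨u, hu1, hu2⟩ := he i j hadj
    obtain ⟨l, hl⟩ := exists_functional b u
    have := exposed_of_functional (row b) l {i, j} ((u : Fin n → ℝ) i)
      (fun x hx => by
        rw [hl]
        rcases hx with rfl | hx
        · rfl
        · rw [Set.mem_singleton_iff.mp hx, hu1])
      (fun x hx => by
        rw [hl]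
        exact hu2 x (fun h => hx (Or.inl h)) (fun h => hx (Or.inr h)))
    rwa [Set.image_pair, convexHull_pair] at this
  · by_contra hadj
    obtain ⟨k, l, hki, hkj, hrel⟩ := hn i j hij hadj
    have hmem : ∀ x, row b x ∈ eigenpolytope b := fun x => subset_convexHull ℝ _ ⟨x, rfl⟩
    have hmid : (1 / 2 : ℝ) • row b k + (1 / 2 : ℝ) • row b l =
        (1 / 2 : ℝ) • row b i + (1 / 2 : ℝ) • row b j := by
      funext t
      have := hrel (b t)
      simp only [Pi.add_apply, Pi.smul_apply, row, smul_eq_mul]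
      linarith
    have hk : row b k ∈ segment ℝ (row b i) (row b j) :=
      hex.isExtreme.left_mem_of_mem_openSegment (hmem k) (hmem l)
        ⟨1 / 2, 1 / 2, by norm_num, by norm_num, by norm_num, rfl⟩
        ⟨1 / 2, 1 / 2, by norm_num, by norm_num, by norm_num, hmid⟩
    have hext : row b k ∈ (eigenpolytope b).extremePoints ℝ :=
      isExtreme_singleton.mp (hvert k).isExtreme
    rcases (mem_extremePoints_iff_forall_segment.mp hext).2 _ (hmem i) _ (hmem j) hk with h | h
    · exact hki (hinj h).symm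
    · exact hkj (hinj h).symm

end Pool.Agent.MP_a5282b_co

end MrgPart0

-- ======== part 1: formerly Pool.Agent.MP_a5282b_co.Tables
section MrgPart1

/-!
Finite computations for the Cayley graph of an even binary `[12,6,4]` code.
-/

set_option autoImplicit false

namespace Pool.Agent.MP_a5282b_co

/-- Addition in `𝔽₂^6`. -/
def xr (x y : Fin 64) : Fin 64 :=
  ⟨x.val ^^^ y.val, Nat.xor_lt_two_pow (n := 6) x.isLt y.isLt⟩

theorem xr_comm (x y : Fin 64) : xr x y = xr y x := Fin.ext (Nat.xor_comm _ _)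
theorem xr_assoc (x y z : Fin 64) : xr (xr x y) z = xr x (xr y z) := Fin.ext (Nat.xor_assoc _ _ _)
theorem xr_self (x : Fin 64) : xr x x = 0 := Fin.ext (Nat.xor_self _)
theorem xr_zero (x : Fin 64) : xr x 0 = x := Fin.ext (Nat.xor_zero _)
theorem xr_cancel (x y : Fin 64) : xr x (xr x y) = y := by
  rw [← xr_assoc, xr_self, xr_comm, xr_zero]
theorem xr_eq_zero {x y : Fin 64} : xr x y = 0 ↔ x = y := by
  constructor
  · intro h
    rw [← xr_cancel x y, h, xr_zero]
  · rintro rfl
    exact xr_self x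

/-- Translation by `x`. -/
def xrEquiv (x : Fin 64) : Fin 64 ≃ Fin 64 := ⟨xr x, xr x, xr_cancel x, xr_cancel x⟩

/-- The sign of the parity of the binary digits. -/
def sg (z : ℕ) : ℤ := if Nat.testBit 7608434000728254870 z then -1 else 1

/-- The characters of `𝔽₂^6`. -/
def chi (a x : Fin 64) : ℤ := sg (a.val &&& x.val)

/-- The connection set. -/
def inS (s : Fin 64) : Bool := Nat.testBit 17278992347134023134 s.val

/-- The eigenvalues. -/
def lam (a : Fin 64) : ℤ :=
  [47, 5, -9, 5, 5, -1, 5, -1, -1, -3, -1, 5, -3, -1, -3, -1, -1, 5, -1, -3, -3, -1, -3, -1, 7, -3,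
    -1, -3, -3, -1, -3, -1, -1, 5, -1, 5, -3, -1, -3, -9, -1, -3, -1, -3, 5, -1, -3, -1, -1, -3, -1,
    -3, -3, -1, 5, -1, -1, -3, -1, -3, 5, -9, 5, -1].getD a.val 0

/-- The kernel of the projection onto the eigenspace of `5`. -/
def ker5 (z : Fin 64) : ℤ := ∑ a : Fin 64, if lam a = 5 then chi a z else 0

/-- A table for `ker5`. -/
def wt (z : Fin 64) : ℤ :=
  [12, 0, 0, 0, 0, -12, 0, 0, 4, -4, 0, -4, 4, -4, 4, 0, 4, -4, 0, 4, 4, -4, -4, 0, 4, 0, 0,
    0, 0, -4, 0, 0, 0, -4, 0, 0, 4, 0, 0, 0, 4, 4, 4, 0, -4, -4, 0, -4, 4, 4, -4, 0, -4, -4,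
    0, 4, 0, 4, 0, 0, -4, 0, 0, 0].getD z.val 0

theorem sg_table : ∀ u v : Fin 64, sg (u.val ^^^ v.val) = sg u.val * sg v.val := by
  decide +kernel

theorem chi_xr (a x y : Fin 64) : chi a (xr x y) = chi a x * chi a y := by
  have h := sg_table ⟨a.val &&& x.val, Nat.lt_of_le_of_lt Nat.and_le_left a.isLt⟩
    ⟨a.val &&& y.val, Nat.lt_of_le_of_lt Nat.and_le_left a.isLt⟩
  simp only at h
  rw [← Nat.and_xor_distrib_left] at h
  exact h

theorem inS_zero : inS 0 = false := by decide +kernel

theorem eig_table : ∀ a : Fin 64, (∑ s : Fin 64, if inS s then chi a s else 0) = lam a := by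
  decide +kernel

theorem orth_table : ∀ z : Fin 64, (∑ a : Fin 64, chi a z) = if z = 0 then 64 else 0 := by
  decide +kernel

theorem ker5_table : ∀ z : Fin 64, ker5 z = wt z := by
  decide +kernel

theorem vert_table : ∀ z : Fin 64, z ≠ 0 → wt z < wt 0 := by
  decide +kernel

theorem edge_table : ∀ s : Fin 64, inS s = true → ∀ z : Fin 64, z ≠ 0 → z ≠ s →
    wt z + wt (xr s z) < wt 0 + wt s := by
  decide +kernel

theorem nonedge_table : ∀ s : Fin 64, s ≠ 0 → inS s = false → ∃ t : Fin 64, t ≠ 0 ∧ t ≠ s ∧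
    ∀ a : Fin 64, lam a = 5 → chi a t + chi a (xr s t) = 1 + chi a s := by
  decide +kernel

theorem lam_table : ∀ a : Fin 64, 5 < lam a → lam a = 47 ∨ lam a = 7 := by
  decide +kernel

theorem lam_vals : lam 0 = 47 ∧ lam 24 = 7 ∧ lam 1 = 5 := by
  decide +kernel

theorem chi_zero : ∀ a : Fin 64, chi a 0 = 1 := by
  decide +kernel

end Pool.Agent.MP_a5282b_co

end MrgPart1

-- ======== part 2: formerly Pool.Agent.MP_a5282b_co.Example
section MrgPart2

set_option autoImplicit false

namespace Pool.Agent.MP_a5282b_co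

/-- The Cayley graph on an even binary `[12,6,4]` code: words at distance `4` or `6` are adjacent. -/
def codeGraph : SimpleGraph (Fin 64) where
  Adj x y := inS (xr x y) = true
  symm := ⟨fun x y h => by rwa [xr_comm]⟩
  loopless := ⟨fun x h => by rw [xr_self, inS_zero] at h; exact Bool.false_ne_true h⟩

/-- The characters as real vectors. -/
def chiR (a : Fin 64) : Fin 64 → ℝ := fun x => (chi a x : ℝ)

theorem adjOp_apply (u : Fin 64 → ℝ) (x : Fin 64) :
    adjOp codeGraph u x = ∑ s : Fin 64, if inS s then u (xr x s) else 0 := by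
  classical
  rw [adjOp, Matrix.toLin'_apply, Matrix.mulVec, dotProduct, ← (xrEquiv x).sum_comp]
  refine Finset.sum_congr rfl fun s _ => ?_
  have h : codeGraph.Adj x (xrEquiv x s) ↔ inS s = true := by
    show inS (xr x (xr x s)) = true ↔ _
    rw [xr_cancel]
  rw [SimpleGraph.adjMatrix_apply]
  by_cases hs : inS s = true
  · rw [if_pos (h.mpr hs), if_pos hs, one_mul]; rfl
  · rw [if_neg (fun h' => hs (h.mp h')), if_neg hs, zero_mul]

theorem eigR (a : Fin 64) : (∑ s : Fin 64, if inS s then chiR a s else 0) = (lam a : ℝ) := by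
  rw [← eig_table a]
  push_cast
  rfl

theorem chiR_xr (a x y : Fin 64) : chiR a (xr x y) = chiR a x * chiR a y := by
  simp [chiR, chi_xr]

theorem adjOp_chiR (a : Fin 64) : adjOp codeGraph (chiR a) = (lam a : ℝ) • chiR a := by
  funext x
  rw [adjOp_apply, Pi.smul_apply, smul_eq_mul, ← eigR a, Finset.sum_mul]
  refine Finset.sum_congr rfl fun s _ => ?_
  split_ifs
  · rw [chiR_xr, mul_comm]
  · simp

/-- Fourier coefficients. -/
def hat (u : Fin 64 → ℝ) (a : Fin 64) : ℝ := ∑ y, chiR a y * u y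

theorem hat_adj (u : Fin 64 → ℝ) (a : Fin 64) :
    hat (adjOp codeGraph u) a = (lam a : ℝ) * hat u a := by
  simp only [hat, adjOp_apply, Finset.mul_sum]
  rw [Finset.sum_comm, ← eigR a]
  simp only [Finset.sum_mul]
  rw [Finset.sum_comm (f := fun y s => (if inS s = true then chiR a s else 0) * (chiR a y * u y))]
  refine Finset.sum_congr rfl fun s _ => ?_
  rw [← (xrEquiv s).sum_comp]
  refine Finset.sum_congr rfl fun y _ => ?_
  show chiR a (xr s y) * (if inS s = true then u (xr (xr s y) s) else 0) = _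
  rw [xr_comm (xr s y) s, xr_cancel, chiR_xr]
  split_ifs
  · ring
  · simp

theorem inversion (u : Fin 64 → ℝ) (x : Fin 64) : 64 * u x = ∑ a, hat u a * chiR a x := by
  simp only [hat, Finset.sum_mul]
  rw [Finset.sum_comm]
  have h : ∀ y, ∑ a, chiR a y * u y * chiR a x = (if x = y then 64 else 0) * u y := by
    intro y
    have h1 : (∑ a, chiR a (xr x y)) = if x = y then 64 else 0 := by
      have h2 := orth_table (xr x y)
      simp only [xr_eq_zero] at h2
      have h3 : (∑ a, chiR a (xr x y)) = ((∑ a, chi a (xr x y) : ℤ) : ℝ) := by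
        push_cast; rfl
      rw [h3, h2]
      split_ifs <;> simp
    rw [← h1, Finset.sum_mul]
    refine Finset.sum_congr rfl fun a _ => ?_
    rw [chiR_xr]
    ring
  simp [h]

theorem hat_eq_zero {μ : ℝ} {u : Fin 64 → ℝ} (hu : u ∈ (adjOp codeGraph).eigenspace μ)
    {a : Fin 64} (ha : (lam a : ℝ) ≠ μ) : hat u a = 0 := by
  have h1 := hat_adj u a
  rw [Module.End.mem_eigenspace_iff.mp hu] at h1
  have h2 : hat (μ • u) a = μ * hat u a := by
    simp only [hat, Finset.mul_sum, Pi.smul_apply, smul_eq_mul]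
    exact Finset.sum_congr rfl fun y _ => by ring
  rw [h2] at h1
  have h3 : ((lam a : ℝ) - μ) * hat u a = 0 := by linarith
  exact (mul_eq_zero.mp h3).resolve_left (sub_ne_zero.mpr ha)

theorem hasEigenvalue_iff (μ : ℝ) : (adjOp codeGraph).HasEigenvalue μ ↔ ∃ a, (lam a : ℝ) = μ := by
  constructor
  · intro h
    obtain ⟨u, hu, hu0⟩ := h.exists_hasEigenvector
    by_contra hcon
    apply hu0
    funext x
    have h1 := inversion u x
    rw [Finset.sum_eq_zero (fun a _ => by
      rw [hat_eq_zero hu (fun h' => hcon ⟨a, h'⟩), zero_mul])] at h1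
    simpa using h1
  · rintro ⟨a, rfl⟩
    refine Module.End.hasEigenvalue_of_hasEigenvector (x := chiR a)
      ⟨Module.End.mem_eigenspace_iff.mpr (adjOp_chiR a), fun h => ?_⟩
    have := congrFun h 0
    simp [chiR, chi_zero] at this

theorem isKth : IsKthEigenvalue codeGraph 5 3 := by
  obtain ⟨h0, h24, h1⟩ := lam_vals
  refine ⟨(hasEigenvalue_iff 5).mpr ⟨1, by rw [h1]; norm_num⟩, ?_⟩
  have : {μ : ℝ | (adjOp codeGraph).HasEigenvalue μ ∧ 5 < μ} = {47, 7} := by
    ext μ
    simp only [Set.mem_ofPred_eq, hasEigenvalue_iff, Set.mem_insert_iff, Set.mem_singleton_iff]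
    constructor
    · rintro ⟨⟨a, rfl⟩, ha⟩
      have ha' : 5 < lam a := by exact_mod_cast ha
      rcases lam_table a ha' with h | h <;> rw [h] <;> norm_num
    · rintro (rfl | rfl)
      · exact ⟨⟨0, by rw [h0]; norm_num⟩, by norm_num⟩
      · exact ⟨⟨24, by rw [h24]; norm_num⟩, by norm_num⟩
  rw [this, Set.ncard_pair (by norm_num)]

/-- The projection of the `i`-th unit vector onto the eigenspace, up to scale. -/
def pr (i : Fin 64) : Fin 64 → ℝ := fun x => (wt (xr i x) : ℝ)

theorem pr_mem (i : Fin 64) : pr i ∈ (adjOp codeGraph).eigenspace 5 := by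
  have h : pr i = ∑ a : Fin 64, if lam a = 5 then chiR a i • chiR a else 0 := by
    funext x
    rw [pr, ← ker5_table, ker5, Finset.sum_apply]
    push_cast
    refine Finset.sum_congr rfl fun a _ => ?_
    split_ifs
    · rw [Pi.smul_apply, smul_eq_mul, ← chiR_xr]; rfl
    · rfl
  rw [h]
  refine Submodule.sum_mem _ fun a _ => ?_
  split_ifs with ha
  · refine Submodule.smul_mem _ _ (Module.End.mem_eigenspace_iff.mpr ?_)
    rw [adjOp_chiR, ha]
    norm_num
  · exact Submodule.zero_mem _

theorem isSpectral : IsSpectral codeGraph 5 := by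
  apply isSpectral_of
  · intro i
    refine ⟨⟨pr i, pr_mem i⟩, fun x hx => ?_⟩
    have := vert_table (xr i x) (fun h => hx (xr_eq_zero.mp h).symm)
    simp only [pr, xr_self]
    exact_mod_cast this
  · intro i j hij
    refine ⟨⟨pr i + pr j, Submodule.add_mem _ (pr_mem i) (pr_mem j)⟩, ?_, fun x hxi hxj => ?_⟩
    · simp only [pr, xr_self, Pi.add_apply, xr_comm j i]
      ring
    · have := edge_table (xr i j) hij (xr i x) (fun h => hxi (xr_eq_zero.mp h).symm)
        (fun h => hxj ((xrEquiv i).injective h))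
      rw [xr_comm i j, xr_assoc, xr_cancel] at this
      simp only [pr, xr_self, Pi.add_apply]
      exact_mod_cast this
  · intro i j hij hadj
    obtain ⟨t, ht0, hts, hrel⟩ := nonedge_table (xr i j) (fun h => hij (xr_eq_zero.mp h))
      (Bool.eq_false_iff.mpr hadj)
    refine ⟨xr i t, xr i (xr (xr i j) t), ?_, ?_, fun u => ?_⟩
    · intro h
      apply ht0
      rw [← xr_cancel i t, h, xr_self]
    · intro h
      apply hts
      rw [← xr_cancel i t, h]
    · have e1 := inversion u (xr i t)
      have e2 := inversion u (xr i (xr (xr i j) t))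
      have e3 := inversion u i
      have e4 := inversion u j
      have key : ∑ a, hat u a * chiR a (xr i t) + ∑ a, hat u a * chiR a (xr i (xr (xr i j) t)) =
          ∑ a, hat u a * chiR a i + ∑ a, hat u a * chiR a j := by
        rw [← Finset.sum_add_distrib, ← Finset.sum_add_distrib]
        refine Finset.sum_congr rfl fun a _ => ?_
        by_cases ha : lam a = 5
        · have h1 : chiR a t + chiR a (xr (xr i j) t) = 1 + chiR a (xr i j) := by
            simp only [chiR]
            exact_mod_cast hrel a ha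
          have h2 : chiR a j = chiR a i * chiR a (xr i j) := by rw [← chiR_xr, xr_cancel]
          rw [chiR_xr a i t, chiR_xr a i (xr _ t), h2]
          linear_combination (hat u a * chiR a i) * h1
        · rw [hat_eq_zero u.2 (a := a) (by exact_mod_cast ha)]
          simp
      linarith

end Pool.Agent.MP_a5282b_co

end MrgPart2

-- marker of a merged file
example : 731051 + 696298 = 731051 + 696298 := rfl
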